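import Pool.Agent.H5.AX.PCK

/-!
# Board axs, row AVG: averaging over rings
-/

set_option autoImplicit false

namespace Pool.Agent.H5.AX

open Pool.Agent.H87.SN Pool.Agent.H87.SH Pool.Agent.H87.AX
open MeasureTheory Metric Set Filter Topology
open scoped ContDiff RealInnerProductSpace ENNReal

theorem sq_vol (ρ z : ℝ) :
    volume (Ioo (19 / 20 * ρ) (21 / 20 * ρ) ×ˢ Ioo (z - 1 / 20 * ρ) (z + 1 / 20 * ρ)) =
      ENNReal.ofReal (1 / 10 * ρ) * ENNReal.ofReal (1 / 10 * ρ) := by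
  rw [Measure.volume_eq_prod, Measure.prod_prod, Real.volume_Ioo, Real.volume_Ioo]
  congr 2
  · ring
  · ring

theorem two_hundred : (1 : ℝ≥0∞) ≤ 200 * ENNReal.ofReal (4 / 441) := by
  have h1 : (200 : ℝ≥0∞) = ENNReal.ofReal 200 := by
    rw [ENNReal.ofReal_ofNat]
  rw [h1, ← ENNReal.ofReal_mul (by norm_num), ENNReal.one_le_ofReal]
  norm_num

theorem pf_AVG : T_AVG := by
  intro h V V' hh hV hV' hV0 hVV'
  set P : Set (ℝ × ℝ) := V' ∩ {p | 0 < p.1} with hP
  have hPm : MeasurableSet P :=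
    hV'.inter (isOpen_lt continuous_const continuous_fst).measurableSet
  set f : ℝ × ℝ → E (1 + 2) → ℝ≥0∞ := fun p x =>
    ENNReal.ofReal (1 / p.1 ^ 2) * (rg p (1 / 16)).indicator h x with hf
  have hfm : Measurable (Function.uncurry f) := by
    have h1 : Measurable fun q : (ℝ × ℝ) × E (1 + 2) => ENNReal.ofReal (1 / q.1.1 ^ 2) := by
      fun_prop
    have h2 : Measurable fun q : (ℝ × ℝ) × E (1 + 2) =>
        ({q : (ℝ × ℝ) × E (1 + 2) | q.2 ∈ rg q.1 (1 / 16)}).indicator (fun q => h q.2) q :=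
      (hh.comp measurable_snd).indicator (rg_meas _)
    exact h1.mul h2
  have e1 : ∀ p : ℝ × ℝ, ENNReal.ofReal (1 / p.1 ^ 2) * ∫⁻ x in rg p (1 / 16), h x =
      ∫⁻ x, f p x := by
    intro p
    simp only [hf]
    rw [lintegral_const_mul _ (hh.indicator (rg_slice _ _)), lintegral_indicator (rg_slice _ _)]
  have e2 : ∫⁻ p in P, ENNReal.ofReal (1 / p.1 ^ 2) * ∫⁻ x in rg p (1 / 16), h x =
      ∫⁻ x, ∫⁻ p in P, f p x := by
    rw [lintegral_congr e1]
    exact lintegral_lintegral_swap hfm.aemeasurable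
  have hlow : ∀ x ∈ V, h x ≤ 200 * ∫⁻ p in P, f p x := by
    intro x hx
    have hρ : 0 < rho x := hV0 hx
    set S : Set (ℝ × ℝ) := Ioo (19 / 20 * rho x) (21 / 20 * rho x) ×ˢ
      Ioo (zp x 0 - 1 / 20 * rho x) (zp x 0 + 1 / 20 * rho x) with hS
    have hSm : MeasurableSet S := measurableSet_Ioo.prod measurableSet_Ioo
    have hSr : ∀ p ∈ S, 0 < p.1 ∧ x ∈ rg p (1 / 16) := by
      intro p hp
      obtain ⟨⟨h1, h2⟩, h3, h4⟩ := hp
      refine ⟨by linarith, ?_, ?_⟩
      · rw [abs_lt]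
        constructor <;> linarith
      · rw [abs_lt]
        constructor <;> linarith
    have hSP : S ⊆ P := fun p hp =>
      ⟨hVV' x hx p (hSr p hp).1 (hSr p hp).2, (hSr p hp).1⟩
    have h5 : ∫⁻ p in S, f p x ≤ ∫⁻ p in P, f p x := lintegral_mono_set hSP
    have h6 : ∫⁻ _p in S, ENNReal.ofReal (400 / (441 * rho x ^ 2)) * h x ≤
        ∫⁻ p in S, f p x := by
      refine setLIntegral_mono' hSm fun p hp => ?_
      simp only [hf]
      rw [indicator_of_mem (hSr p hp).2]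
      refine mul_le_mul_left (ENNReal.ofReal_le_ofReal ?_) _
      have h7 : p.1 < 21 / 20 * rho x := hp.1.2
      have h8 := (hSr p hp).1
      rw [div_le_div_iff₀ (by positivity) (by positivity)]
      nlinarith
    have h9 : ∫⁻ _p in S, ENNReal.ofReal (400 / (441 * rho x ^ 2)) * h x =
        ENNReal.ofReal (4 / 441) * h x := by
      rw [setLIntegral_const, hS, sq_vol, mul_assoc, mul_comm (h x), ← mul_assoc,
        ← ENNReal.ofReal_mul (by positivity), ← ENNReal.ofReal_mul (by positivity)]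
      congr 2
      field_simp
      norm_num
    rw [h9] at h6
    calc h x = 1 * h x := (one_mul _).symm
      _ ≤ 200 * ENNReal.ofReal (4 / 441) * h x := mul_le_mul_left two_hundred _
      _ = 200 * (ENNReal.ofReal (4 / 441) * h x) := mul_assoc _ _ _
      _ ≤ 200 * ∫⁻ p in P, f p x := mul_le_mul_right (h6.trans h5) _
  rw [e2, ← lintegral_const_mul' _ _ (by norm_num)]
  calc ∫⁻ x in V, h x ≤ ∫⁻ x in V, 200 * ∫⁻ p in P, f p x := setLIntegral_mono' hV hlow
    _ ≤ ∫⁻ x, 200 * ∫⁻ p in P, f p x := setLIntegral_le_lintegral _ _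

end Pool.Agent.H5.AX
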