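import Pool.Agent.H87.AX.Targets4

/-!
# Board axs, row COV: a covering lemma
-/

set_option autoImplicit false

namespace Pool.Agent.H5.AX

open Pool.Agent.H87.SN Pool.Agent.H87.SH Pool.Agent.H87.AX
open MeasureTheory Metric Set Filter Topology
open scoped ContDiff RealInnerProductSpace ENNReal

theorem pf_COV : T_COV := by
  intro n k
  obtain ⟨T, -, hTfin, hT⟩ := (isCompact_closedBall (0 : E n) (k : ℝ)).finite_cover_balls
    (show (0 : ℝ) < 1 / 2 by norm_num)
  classical
  refine ⟨hTfin.toFinset.card, ?_⟩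
  intro x ρ A hρ hA
  set φ : E n → E n := fun c =>
    if h : (A ∩ ball (x + ρ • c) (ρ / 2)).Nonempty then h.choose else x with hφ
  refine ⟨(hTfin.toFinset.filter fun c => (A ∩ ball (x + ρ • c) (ρ / 2)).Nonempty).image φ,
    Finset.card_image_le.trans (Finset.card_filter_le _ _), ?_, ?_⟩
  · intro a ha
    rw [Finset.mem_coe, Finset.mem_image] at ha
    obtain ⟨c, hc, rfl⟩ := ha
    have h1 := (Finset.mem_filter.1 hc).2
    simp only [hφ]
    rw [dif_pos h1]
    exact h1.choose_spec.1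
  · intro a ha
    have h1 : ρ⁻¹ • (a - x) ∈ closedBall (0 : E n) (k : ℝ) := by
      have h2 := hA ha
      rw [mem_closedBall, dist_eq_norm] at h2
      rw [mem_closedBall, dist_zero_right, norm_smul, norm_inv, Real.norm_eq_abs, abs_of_pos hρ,
        inv_mul_le_iff₀ hρ]
      linarith
    obtain ⟨c, hc, hc2⟩ := mem_iUnion₂.1 (hT h1)
    have h3 : a ∈ ball (x + ρ • c) (ρ / 2) := by
      rw [mem_ball, dist_eq_norm] at hc2 ⊢
      have h4 : a - (x + ρ • c) = ρ • (ρ⁻¹ • (a - x) - c) := by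
        rw [smul_sub, smul_smul, mul_inv_cancel₀ hρ.ne', one_smul]
        abel
      rw [h4, norm_smul, Real.norm_eq_abs, abs_of_pos hρ]
      nlinarith
    have h5 : (A ∩ ball (x + ρ • c) (ρ / 2)).Nonempty := ⟨a, ha, h3⟩
    refine mem_iUnion₂.2 ⟨φ c, ?_, ?_⟩
    · rw [Finset.mem_image]
      exact ⟨c, Finset.mem_filter.2 ⟨hTfin.mem_toFinset.2 hc, h5⟩, rfl⟩
    · simp only [hφ]
      rw [dif_pos h5]
      have h6 := h5.choose_spec.2
      rw [mem_ball] at h3 h6 ⊢
      have h7 := dist_triangle_right a h5.choose (x + ρ • c)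
      linarith

end Pool.Agent.H5.AX
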