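import Pool.Agent.H87.AX.Targets4

/-!
# Board axs, row PCK: the packing bound
-/

set_option autoImplicit false

namespace Pool.Agent.H5.AX

open Pool.Agent.H87.SN Pool.Agent.H87.SH Pool.Agent.H87.AX
open MeasureTheory Metric Set Filter Topology
open scoped ContDiff RealInnerProductSpace ENNReal

theorem rho_cont : Continuous (fun x : E (1 + 2) => rho x) := by
  unfold rho
  fun_prop

theorem zp_cont : Continuous (fun x : E (1 + 2) => zp x 0) := by
  have h : (fun x : E (1 + 2) => zp x 0) = fun x => x (0 : Fin 1).succ.succ := rfl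
  rw [h]
  fun_prop

/-- the incidence set of points and rings is measurable -/
theorem rg_meas (l : ℝ) :
    MeasurableSet {q : (ℝ × ℝ) × E (1 + 2) | q.2 ∈ rg q.1 l} := by
  have h1 : Continuous fun q : (ℝ × ℝ) × E (1 + 2) => rho q.2 := rho_cont.comp continuous_snd
  have h2 : Continuous fun q : (ℝ × ℝ) × E (1 + 2) => zp q.2 0 := zp_cont.comp continuous_snd
  have h3 : Continuous fun q : (ℝ × ℝ) × E (1 + 2) => q.1.1 := by fun_prop
  have h4 : Continuous fun q : (ℝ × ℝ) × E (1 + 2) => q.1.2 := by fun_prop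
  have h5 : {q : (ℝ × ℝ) × E (1 + 2) | q.2 ∈ rg q.1 l} =
      {q | |rho q.2 - q.1.1| < l * q.1.1} ∩ {q | |zp q.2 0 - q.1.2| < l * q.1.1} := rfl
  rw [h5]
  exact (isOpen_lt (h1.sub h3).abs (h3.const_mul l)).measurableSet.inter
    (isOpen_lt (h2.sub h4).abs (h3.const_mul l)).measurableSet

theorem rg_slice (l : ℝ) (p : ℝ × ℝ) : MeasurableSet (rg p l) :=
  (measurable_prodMk_left (x := p)) (rg_meas l)

/-- the points whose ring contains `x` -/
theorem rg_box {p : ℝ × ℝ} {x : E (1 + 2)} (hx : x ∈ rg p (3 / 4)) :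
    p ∈ Ioo (4 / 7 * rho x) (4 * rho x) ×ˢ Ioo (zp x 0 - 3 * rho x) (zp x 0 + 3 * rho x) := by
  obtain ⟨h1, h2⟩ := hx
  rw [abs_lt] at h1 h2
  refine ⟨⟨?_, ?_⟩, ⟨?_, ?_⟩⟩ <;> linarith

theorem box_vol (ρ z : ℝ) : volume (Ioo (4 / 7 * ρ) (4 * ρ) ×ˢ Ioo (z - 3 * ρ) (z + 3 * ρ)) =
    ENNReal.ofReal (24 / 7 * ρ) * ENNReal.ofReal (6 * ρ) := by
  rw [Measure.volume_eq_prod, Measure.prod_prod, Real.volume_Ioo, Real.volume_Ioo]
  congr 2
  · ring
  · ring

theorem pf_PCK : T_PCK := by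
  refine ⟨64, by norm_num, ?_⟩
  intro e B ε he hB hB0 hε hp
  classical
  set f : ℝ × ℝ → E (1 + 2) → ℝ≥0∞ := fun p x =>
    ENNReal.ofReal (1 / (ε * p.1 ^ 2)) * (rg p (3 / 4)).indicator e x with hf
  have hfm : Measurable (Function.uncurry f) := by
    have h1 : Measurable fun q : (ℝ × ℝ) × E (1 + 2) =>
        ENNReal.ofReal (1 / (ε * q.1.1 ^ 2)) := by fun_prop
    have h2 : Measurable fun q : (ℝ × ℝ) × E (1 + 2) =>
        ({q : (ℝ × ℝ) × E (1 + 2) | q.2 ∈ rg q.1 (3 / 4)}).indicator (fun q => e q.2) q :=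
      (he.comp measurable_snd).indicator (rg_meas _)
    exact h1.mul h2
  have hlow : ∀ p ∈ B, ENNReal.ofReal (1 / p.1) ≤ ∫⁻ x, f p x := by
    intro p hpB
    have hp1 : 0 < p.1 := hB0 hpB
    have h1 : ∫⁻ x, f p x = ENNReal.ofReal (1 / (ε * p.1 ^ 2)) * ∫⁻ x in rg p (3 / 4), e x := by
      rw [hf]
      simp only
      rw [lintegral_const_mul _ (he.indicator (rg_slice _ _)), lintegral_indicator (rg_slice _ _)]
    rw [h1]
    have h2 : ENNReal.ofReal (1 / p.1) =
        ENNReal.ofReal (1 / (ε * p.1 ^ 2)) * ENNReal.ofReal (ε * p.1) := by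
      rw [← ENNReal.ofReal_mul (by positivity)]
      congr 1
      field_simp
    rw [h2]
    exact mul_le_mul_right (hp p hpB) _
  have hup : ∀ x, ∫⁻ p in B, f p x ≤ ENNReal.ofReal (64 / ε) * e x := by
    intro x
    set S : Set (ℝ × ℝ) :=
      Ioo (4 / 7 * rho x) (4 * rho x) ×ˢ Ioo (zp x 0 - 3 * rho x) (zp x 0 + 3 * rho x) with hS
    have hSm : MeasurableSet S := measurableSet_Ioo.prod measurableSet_Ioo
    have h1 : ∫⁻ p in B, f p x ≤ ∫⁻ p in B, S.indicator (fun _ =>
        ENNReal.ofReal (49 / (16 * ε * rho x ^ 2)) * e x) p := by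
      refine setLIntegral_mono' hB fun p hpB => ?_
      have hp1 : 0 < p.1 := hB0 hpB
      by_cases hx : x ∈ rg p (3 / 4)
      · have hpS : p ∈ S := rg_box hx
        rw [indicator_of_mem hpS]
        simp only [hf]
        rw [indicator_of_mem hx]
        refine mul_le_mul_left (ENNReal.ofReal_le_ofReal ?_) _
        have h2 : 4 / 7 * rho x < p.1 := hpS.1.1
        have h3 : p.1 < 4 * rho x := hpS.1.2
        have h4 : 0 < rho x := by linarith
        rw [div_le_div_iff₀ (by positivity) (by positivity)]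
        have h5 : 16 * rho x ^ 2 ≤ 49 * p.1 ^ 2 := by nlinarith
        nlinarith
      · simp only [hf]
        rw [indicator_of_notMem hx, mul_zero]
        exact zero_le
    refine h1.trans ?_
    refine (setLIntegral_le_lintegral _ _).trans ?_
    rw [lintegral_indicator hSm, setLIntegral_const, hS, box_vol]
    have h0 : 0 ≤ rho x := Real.sqrt_nonneg _
    rw [mul_assoc, mul_comm (e x), ← mul_assoc, ← ENNReal.ofReal_mul (by positivity),
      ← ENNReal.ofReal_mul (by positivity)]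
    refine mul_le_mul_left (ENNReal.ofReal_le_ofReal ?_) _
    rcases h0.eq_or_lt with h6 | h6
    · rw [← h6]
      simp only [mul_zero]
      positivity
    · have h7 : 49 / (16 * ε * rho x ^ 2) * (24 / 7 * rho x * (6 * rho x)) = 63 / ε := by
        field_simp
        norm_num
      rw [h7]
      exact div_le_div_of_nonneg_right (by norm_num) hε.le
  calc ∫⁻ p in B, ENNReal.ofReal (1 / p.1) ≤ ∫⁻ p in B, ∫⁻ x, f p x :=
        setLIntegral_mono' hB hlow
    _ = ∫⁻ x, ∫⁻ p in B, f p x := lintegral_lintegral_swap hfm.aemeasurable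
    _ ≤ ∫⁻ x, ENNReal.ofReal (64 / ε) * e x := lintegral_mono hup
    _ = ENNReal.ofReal (64 / ε) * ∫⁻ x, e x := lintegral_const_mul _ he

end Pool.Agent.H5.AX
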