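import Pool.Agent.H5.AX.PR3
import Pool.Agent.H5.AX.PCK

/-!
# Board axs, row IN3: the weight is integrable
-/

set_option autoImplicit false

namespace Pool.Agent.H5.AX

open Pool.Agent.H87.SN Pool.Agent.H87.SH Pool.Agent.H87.AX
open MeasureTheory Metric Set Filter Topology
open scoped ContDiff RealInnerProductSpace ENNReal

/-- The coordinate of a one-dimensional Euclidean space as a measurable equivalence. -/
noncomputable def eq1 : E 1 ≃ᵐ ℝ :=
  (MeasurableEquiv.toLp 2 (Fin 1 → ℝ)).symm.trans (MeasurableEquiv.funUnique (Fin 1) ℝ)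

theorem eq1_mp : MeasurePreserving eq1 volume volume := by
  have h1 := (EuclideanSpace.volume_preserving_symm_measurableEquiv_toLp (Fin 1))
  have h2 := volume_preserving_funUnique (Fin 1) ℝ
  exact h2.comp h1

theorem sqrt_int {h : ℝ} (hh : 0 < h) :
    ∫⁻ s in Ioo (2 * h) 1, ENNReal.ofReal (Real.sqrt (h / s) / s) ≤ ENNReal.ofReal 2 := by
  rcases le_or_gt 1 (2 * h) with h1 | h1
  · rw [Ioo_eq_empty (not_lt.2 h1), Measure.restrict_empty, lintegral_zero_measure]
    exact zero_le
  · have hc : ContinuousOn (fun s : ℝ => Real.sqrt (h / s) / s) (Ioi 0) := by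
      have h2 : ContinuousOn (fun s : ℝ => h / s) (Ioi 0) :=
        continuousOn_const.div continuousOn_id fun s hs => (ne_of_gt hs)
      exact h2.sqrt.div continuousOn_id fun s hs => (ne_of_gt hs)
    have hsub : uIcc (2 * h) 1 ⊆ Ioi 0 := by
      rw [uIcc_of_le h1.le]
      intro s hs
      have h3 := hs.1
      change 0 < s
      linarith
    have hint : IntervalIntegrable (fun s : ℝ => Real.sqrt (h / s) / s) volume (2 * h) 1 :=
      (hc.mono hsub).intervalIntegrable
    have hFTC : ∫ s in (2 * h)..1, Real.sqrt (h / s) / s =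
        -2 * Real.sqrt (h / 1) - -2 * Real.sqrt (h / (2 * h)) := by
      refine intervalIntegral.integral_eq_sub_of_hasDerivAt (f := fun s : ℝ =>
        -2 * Real.sqrt (h / s)) (fun s hs => ?_) hint
      have hs0 : 0 < s := hsub hs
      have h4 := (sqrt_hasDeriv hh hs0).const_mul (-2 : ℝ)
      refine h4.congr_deriv ?_
      field_simp
    have hle : ∫ s in (2 * h)..1, Real.sqrt (h / s) / s ≤ 2 := by
      rw [hFTC]
      have h5 : 0 ≤ Real.sqrt (h / 1) := Real.sqrt_nonneg _
      have h6 : Real.sqrt (h / (2 * h)) ≤ 1 := by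
        rw [Real.sqrt_le_one]
        rw [div_le_one (by positivity)]
        linarith
      linarith
    calc ∫⁻ s in Ioo (2 * h) 1, ENNReal.ofReal (Real.sqrt (h / s) / s)
        ≤ ∫⁻ s in Ioc (2 * h) 1, ENNReal.ofReal (Real.sqrt (h / s) / s) :=
          lintegral_mono_set Ioo_subset_Ioc_self
      _ = ENNReal.ofReal (∫ s in Ioc (2 * h) 1, Real.sqrt (h / s) / s) := by
          rw [ofReal_integral_eq_lintegral_ofReal]
          · exact (intervalIntegrable_iff_integrableOn_Ioc_of_le h1.le).1 hint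
          · rw [EventuallyLE, ae_restrict_iff' measurableSet_Ioc]
            refine Eventually.of_forall fun s hs => ?_
            have h7 : 0 < s := by linarith [hs.1]
            exact div_nonneg (Real.sqrt_nonneg _) h7.le
      _ ≤ ENNReal.ofReal 2 := by
          refine ENNReal.ofReal_le_ofReal ?_
          rwa [← intervalIntegral.integral_of_le h1.le]

theorem pf_IN3 (hPOL : T_POL) (hJGN : T_JGN) (hJGI : T_JGI) : T_IN3 := by
  obtain ⟨C, hC, hJ⟩ := hJGI
  have hpi := Real.pi_pos
  refine ⟨12 * Real.pi + 2 * Real.pi * C, by positivity, fun h ν hh hh1 hν => ?_⟩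
  obtain ⟨hJ0, hJcd, -, -, -⟩ := hJGN ν hν
  have hJint := hJ ν hν
  set A : Set (ℝ × E 1) := {p | |p.2 0| < 1 ∧ 2 * h < p.1 ∧ p.1 < 1} with hA
  set g : ℝ × E 1 → ℝ≥0∞ := fun p =>
    ENNReal.ofReal ((p.1 ^ 2 * Wn h ν (p.1, p.2 0))⁻¹) with hg
  have hAo : IsOpen A := by
    have c1 : Continuous fun p : ℝ × E 1 => |p.2 0| := by fun_prop
    exact (isOpen_lt c1 continuous_const).inter
      ((isOpen_lt continuous_const continuous_fst).inter (isOpen_lt continuous_fst continuous_const))
  have hA0 : ∀ p ∈ A, 0 < p.1 := fun p hp => by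
    have := hp.2.1
    linarith
  have hsq : ∀ s : ℝ, 0 < s → 0 < Real.sqrt (h / s) := fun s hs =>
    Real.sqrt_pos.2 (div_pos hh hs)
  have hD : ∀ s τ : ℝ, 0 < s → 0 < s + Jn ν s τ + Real.sqrt (h / s) := fun s τ hs => by
    have h1 := hJ0 s τ hs
    have h2 := hsq s hs
    linarith
  have hJc : ContinuousOn (fun p : ℝ × E 1 => Jn ν p.1 (p.2 0)) A := by
    have h1 : ContinuousOn (fun p : ℝ × ℝ => Jn ν p.1 p.2) {p | 0 < p.1} := hJcd.continuousOn
    have h2 : Continuous (fun p : ℝ × E 1 => (p.1, p.2 0)) := by fun_prop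
    exact h1.comp h2.continuousOn fun p hp => hA0 p hp
  have hgc : ContinuousOn g A := by
    refine ENNReal.continuous_ofReal.comp_continuousOn ?_
    have c0 : ContinuousOn (fun p : ℝ × E 1 => Real.sqrt (h / p.1)) A :=
      (continuousOn_const.div continuous_fst.continuousOn fun p hp => (hA0 p hp).ne').sqrt
    have c1 : ContinuousOn (fun p : ℝ × E 1 => p.1 + Jn ν p.1 (p.2 0) + Real.sqrt (h / p.1)) A :=
      (continuous_fst.continuousOn.add hJc).add c0
    refine ContinuousOn.inv₀ ((continuous_fst.pow 2).continuousOn.mul (c1.inv₀ fun p hp => ?_))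
      fun p hp => ?_
    · exact (hD p.1 (p.2 0) (hA0 p hp)).ne'
    · exact mul_ne_zero (pow_ne_zero 2 (hA0 p hp).ne')
        (inv_ne_zero (hD p.1 (p.2 0) (hA0 p hp)).ne')
  classical
  set f : ℝ × E 1 → ℝ≥0∞ := A.piecewise g (fun _ => 0) with hf
  have hfm : Measurable f := hgc.measurable_piecewise continuousOn_const hAo.measurableSet
  -- first step
  have s1 : ∫⁻ x in {x : E (1 + 2) | x ∈ ball (0 : E (1 + 2)) 1 ∧ 2 * h < rho x},
      ENNReal.ofReal ((rho x ^ 2 * Wn h ν (rho x, zp x 0))⁻¹) ≤
      ∫⁻ x : E (1 + 2), f (rho x, zp x) := by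
    rw [← lintegral_indicator]
    · refine lintegral_mono fun x => ?_
      by_cases hx : x ∈ {x : E (1 + 2) | x ∈ ball (0 : E (1 + 2)) 1 ∧ 2 * h < rho x}
      · rw [indicator_of_mem hx]
        have hn : ‖x‖ < 1 := by simpa using hx.1
        have hn2 : ‖x‖ ^ 2 = x 0 ^ 2 + (x 1 ^ 2 + x 2 ^ 2) := by
          rw [EuclideanSpace.norm_sq_eq, Fin.sum_univ_succ, Fin.sum_univ_succ, Fin.sum_univ_succ]
          simp
        have hn3 : ‖x‖ ^ 2 < 1 := by
          have := norm_nonneg x
          nlinarith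
        have hmem : (rho x, zp x) ∈ A := by
          refine ⟨?_, hx.2, ?_⟩
          · show |zp x 0| < 1
            have : zp x 0 = x 2 := rfl
            rw [this, abs_lt]
            constructor <;> nlinarith [sq_nonneg (x 0), sq_nonneg (x 1)]
          · show rho x < 1
            have h2 : rho x ^ 2 = x 0 ^ 2 + x 1 ^ 2 := Real.sq_sqrt (by positivity)
            have h3 : 0 ≤ rho x := Real.sqrt_nonneg _
            nlinarith [sq_nonneg (x 2)]
        rw [hf, piecewise_eq_of_mem _ _ _ hmem]
      · rw [indicator_of_notMem hx]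
        exact zero_le
    · exact (isOpen_ball.inter (isOpen_lt continuous_const rho_cont)).measurableSet
  -- polar coordinates
  have s2 := hPOL 1 f hfm
  -- inner integral
  set Fo : ℝ → ℝ≥0∞ := fun τ =>
    (Ioo (-1 : ℝ) 1).indicator (fun _ => ENNReal.ofReal (2 * Real.pi) +
      ENNReal.ofReal (2 * Real.pi) * ENNReal.ofReal 2) τ +
    ENNReal.ofReal (2 * Real.pi) * ∫⁻ s in Ioi (0 : ℝ), ENNReal.ofReal (Jn ν s τ / s) with hFo
  have hsm : Measurable fun s : ℝ => ENNReal.ofReal (Real.sqrt (h / s) / s) := by fun_prop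
  have hm1 : Measurable fun s : ℝ =>
      (Ioo (0 : ℝ) 1).indicator (fun _ => ENNReal.ofReal (2 * Real.pi)) s +
      (Ioo (2 * h) 1).indicator (fun s => ENNReal.ofReal (2 * Real.pi) *
        ENNReal.ofReal (Real.sqrt (h / s) / s)) s := by
    have m1 : Measurable fun s : ℝ => ENNReal.ofReal (2 * Real.pi) *
        ENNReal.ofReal (Real.sqrt (h / s) / s) := hsm.const_mul _
    exact (measurable_const.indicator measurableSet_Ioo).add (m1.indicator measurableSet_Ioo)
  have s3 : ∀ z : E 1, ∫⁻ s in Ioi (0 : ℝ), ENNReal.ofReal (2 * Real.pi * s) * f (s, z) ≤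
      Fo (z 0) := by
    intro z
    by_cases hz : |z 0| < 1
    · have hz' : z 0 ∈ Ioo (-1 : ℝ) 1 := by rwa [mem_Ioo, ← abs_lt]
      have hb : ∀ s ∈ Ioi (0 : ℝ), ENNReal.ofReal (2 * Real.pi * s) * f (s, z) ≤
          ((Ioo (0 : ℝ) 1).indicator (fun _ => ENNReal.ofReal (2 * Real.pi)) s +
          (Ioo (2 * h) 1).indicator (fun s => ENNReal.ofReal (2 * Real.pi) *
            ENNReal.ofReal (Real.sqrt (h / s) / s)) s) +
          (Ioi (0 : ℝ)).indicator (fun s => ENNReal.ofReal (2 * Real.pi) *
            ENNReal.ofReal (Jn ν s (z 0) / s)) s := by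
        intro s hs
        by_cases hm : (s, z) ∈ A
        · have hs0 : 0 < s := hs
          have hs1 : s ∈ Ioo (0 : ℝ) 1 := ⟨hs, hm.2.2⟩
          have hs2 : s ∈ Ioo (2 * h) 1 := ⟨hm.2.1, hm.2.2⟩
          have hj := hJ0 s (z 0) hs0
          have hq := hsq s hs0
          rw [hf, piecewise_eq_of_mem _ _ _ hm, indicator_of_mem hs1, indicator_of_mem hs2,
            indicator_of_mem hs, hg]
          simp only
          rw [← ENNReal.ofReal_mul (by positivity), ← ENNReal.ofReal_mul (by positivity),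
            ← ENNReal.ofReal_mul (by positivity), ← ENNReal.ofReal_add (by positivity)
              (by positivity), ← ENNReal.ofReal_add (by positivity) (by positivity)]
          apply ENNReal.ofReal_le_ofReal
          apply le_of_eq
          unfold Wn
          have h3 := (hD s (z 0) hs0).ne'
          simp only
          rw [mul_inv, inv_inv]
          field_simp
          ring
        · rw [hf, piecewise_eq_of_notMem _ _ _ hm]
          simp
      calc ∫⁻ s in Ioi (0 : ℝ), ENNReal.ofReal (2 * Real.pi * s) * f (s, z)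
          ≤ ∫⁻ s in Ioi (0 : ℝ), (((Ioo (0 : ℝ) 1).indicator
              (fun _ => ENNReal.ofReal (2 * Real.pi)) s +
          (Ioo (2 * h) 1).indicator (fun s => ENNReal.ofReal (2 * Real.pi) *
            ENNReal.ofReal (Real.sqrt (h / s) / s)) s) +
          (Ioi (0 : ℝ)).indicator (fun s => ENNReal.ofReal (2 * Real.pi) *
            ENNReal.ofReal (Jn ν s (z 0) / s)) s) := setLIntegral_mono' measurableSet_Ioi hb
        _ ≤ ∫⁻ s, (((Ioo (0 : ℝ) 1).indicator (fun _ => ENNReal.ofReal (2 * Real.pi)) s +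
          (Ioo (2 * h) 1).indicator (fun s => ENNReal.ofReal (2 * Real.pi) *
            ENNReal.ofReal (Real.sqrt (h / s) / s)) s) +
          (Ioi (0 : ℝ)).indicator (fun s => ENNReal.ofReal (2 * Real.pi) *
            ENNReal.ofReal (Jn ν s (z 0) / s)) s) := setLIntegral_le_lintegral _ _
        _ = ((∫⁻ s, (Ioo (0 : ℝ) 1).indicator (fun _ => ENNReal.ofReal (2 * Real.pi)) s) +
          ∫⁻ s, (Ioo (2 * h) 1).indicator (fun s => ENNReal.ofReal (2 * Real.pi) *
            ENNReal.ofReal (Real.sqrt (h / s) / s)) s) +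
          ∫⁻ s, (Ioi (0 : ℝ)).indicator (fun s => ENNReal.ofReal (2 * Real.pi) *
            ENNReal.ofReal (Jn ν s (z 0) / s)) s := by
            rw [lintegral_add_left hm1, lintegral_add_left
              (measurable_const.indicator measurableSet_Ioo)]
        _ ≤ Fo (z 0) := by
            rw [lintegral_indicator measurableSet_Ioo, lintegral_indicator measurableSet_Ioi,
              lintegral_indicator measurableSet_Ioo,
              lintegral_const_mul' _ _ ENNReal.ofReal_ne_top,
              lintegral_const_mul' _ _ ENNReal.ofReal_ne_top, hFo]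
            simp only
            rw [indicator_of_mem hz']
            refine add_le_add (add_le_add ?_ ?_) le_rfl
            · simp
            · exact mul_le_mul_right (sqrt_int hh) _
    · have : ∀ s ∈ Ioi (0 : ℝ), ENNReal.ofReal (2 * Real.pi * s) * f (s, z) = 0 := by
        intro s _
        have hm : (s, z) ∉ A := fun h => hz h.1
        rw [hf, piecewise_eq_of_notMem _ _ _ hm, mul_zero]
      rw [setLIntegral_congr_fun measurableSet_Ioi this]
      simp
  -- outer integral
  have s4 : ∫⁻ z : E 1, Fo (z 0) = ∫⁻ τ : ℝ, Fo τ :=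
    eq1_mp.lintegral_comp_emb eq1.measurableEmbedding Fo
  have s5 : ∫⁻ τ : ℝ, Fo τ ≤
      ENNReal.ofReal (12 * Real.pi + 2 * Real.pi * C) * (1 + ν univ) := by
    rw [hFo, lintegral_add_left (measurable_const.indicator measurableSet_Ioo),
      lintegral_indicator measurableSet_Ioo, lintegral_const_mul' _ _ ENNReal.ofReal_ne_top]
    have e1 : ∫⁻ _τ in Ioo (-1 : ℝ) 1, (ENNReal.ofReal (2 * Real.pi) +
        ENNReal.ofReal (2 * Real.pi) * ENNReal.ofReal 2) = ENNReal.ofReal (12 * Real.pi) := by
      simp only [lintegral_const, Measure.restrict_apply MeasurableSet.univ, univ_inter,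
        Real.volume_Ioo]
      rw [← ENNReal.ofReal_mul (by positivity), ← ENNReal.ofReal_add (by positivity)
        (by positivity), ← ENNReal.ofReal_mul (by positivity)]
      congr 1
      ring
    have e2 : ENNReal.ofReal (2 * Real.pi) * (ENNReal.ofReal C * ν univ) =
        ENNReal.ofReal (2 * Real.pi * C) * ν univ := by
      rw [← mul_assoc, ← ENNReal.ofReal_mul (by positivity)]
    rw [e1]
    calc ENNReal.ofReal (12 * Real.pi) + ENNReal.ofReal (2 * Real.pi) *
          ∫⁻ τ : ℝ, ∫⁻ s in Ioi (0 : ℝ), ENNReal.ofReal (Jn ν s τ / s)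
        ≤ ENNReal.ofReal (12 * Real.pi) +
          ENNReal.ofReal (2 * Real.pi) * (ENNReal.ofReal C * ν univ) :=
          add_le_add le_rfl (mul_le_mul_right hJint _)
      _ = ENNReal.ofReal (12 * Real.pi) * 1 + ENNReal.ofReal (2 * Real.pi * C) * ν univ := by
          rw [e2, mul_one]
      _ ≤ ENNReal.ofReal (12 * Real.pi + 2 * Real.pi * C) * 1 +
          ENNReal.ofReal (12 * Real.pi + 2 * Real.pi * C) * ν univ := by
          have i1 : (0 : ℝ) ≤ 2 * Real.pi * C := by positivity
          refine add_le_add (mul_le_mul_left (ENNReal.ofReal_le_ofReal ?_) _)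
            (mul_le_mul_left (ENNReal.ofReal_le_ofReal ?_) _)
          · linarith
          · linarith
      _ = _ := (mul_add _ _ _).symm
  calc _ ≤ ∫⁻ x : E (1 + 2), f (rho x, zp x) := s1
    _ = _ := s2
    _ ≤ ∫⁻ z : E 1, Fo (z 0) := lintegral_mono s3
    _ = ∫⁻ τ : ℝ, Fo τ := s4
    _ ≤ _ := s5

end Pool.Agent.H5.AX
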