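import Pool.Agent.H87.AX.Targets4

/-!
# Board axs, row JGN: the function `J` of a measure is of class `C^1`
-/

set_option autoImplicit false

namespace Pool.Agent.H5.AX

open Pool.Agent.H87.SN Pool.Agent.H87.SH Pool.Agent.H87.AX
open MeasureTheory Metric Set Filter Topology
open scoped ContDiff RealInnerProductSpace ENNReal

theorem kerV_meas (s τ : ℝ) : Measurable (kerV s τ) := by
  unfold kerV
  have h1 : Measurable fun q : ℝ × ℝ => s / (s ^ 2 + q.1 ^ 2 + (τ - q.2) ^ 2 / 100) := by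
    fun_prop
  exact (h1.pow_const _).mul (Real.continuous_sqrt.measurable.comp measurable_fst)

/-- a linear form on the plane -/
theorem clm_eq (L : ℝ × ℝ →L[ℝ] ℝ) :
    L = L (1, 0) • ContinuousLinearMap.fst ℝ ℝ ℝ + L (0, 1) • ContinuousLinearMap.snd ℝ ℝ ℝ := by
  ext
  · simp
  · simp

theorem clm_norm_le (L : ℝ × ℝ →L[ℝ] ℝ) : ‖L‖ ≤ |L (1, 0)| + |L (0, 1)| := by
  refine L.opNorm_le_bound (by positivity) fun v => ?_
  have h1 : L v = L (1, 0) * v.1 + L (0, 1) * v.2 := by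
    conv_lhs => rw [clm_eq L]
    simp
  rw [h1]
  refine (norm_add_le _ _).trans ?_
  rw [norm_mul, norm_mul, add_mul, Real.norm_eq_abs, Real.norm_eq_abs]
  have h2 : ‖v.1‖ ≤ ‖v‖ := norm_fst_le v
  have h3 : ‖v.2‖ ≤ ‖v‖ := norm_snd_le v
  exact add_le_add (mul_le_mul_of_nonneg_left h2 (abs_nonneg _))
    (mul_le_mul_of_nonneg_left h3 (abs_nonneg _))

theorem pf_JGN (hKVF : T_KVF) : T_JGN := by
  obtain ⟨hK0, hKC, hK1, hKcmp, -⟩ := hKVF
  intro ν hν
  have hfin : IsFiniteMeasure ν := ⟨lt_top_iff_ne_top.2 hν.fin⟩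
  have hae : ∀ᵐ q ∂ν, 0 < q.1 := by
    rw [ae_iff]
    refine measure_mono_null (fun q hq => ?_) hν.pos
    simpa using hq
  set U : Set (ℝ × ℝ) := {p | 0 < p.1} with hUdef
  have hU : IsOpen U := isOpen_lt continuous_const continuous_fst
  set K : ℝ × ℝ → ℝ × ℝ → ℝ := fun p q => kerV p.1 p.2 q with hK
  set F' : ℝ × ℝ → ℝ × ℝ → (ℝ × ℝ →L[ℝ] ℝ) := fun p q => fderiv ℝ (fun p => K p q) p with hF'
  have hKd : ∀ q : ℝ × ℝ, 0 < q.1 → ∀ p ∈ U, HasFDerivAt (fun p => K p q) (F' p q) p :=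
    fun q hq p hp => (((hKC q hq).differentiableOn one_ne_zero).differentiableAt
      (hU.mem_nhds hp)).hasFDerivAt
  have hF'c : ∀ q : ℝ × ℝ, 0 < q.1 → ContinuousOn (fun p => F' p q) U := fun q hq =>
    (hKC q hq).continuousOn_fderiv_of_isOpen hU le_rfl
  have hKm : ∀ p : ℝ × ℝ, Measurable (K p) := fun p => kerV_meas p.1 p.2
  -- the partial derivatives of the kernel
  have hp1 : ∀ q : ℝ × ℝ, 0 < q.1 → ∀ p ∈ U, |p.1 * F' p q (1, 0)| ≤ 3 / 2 * K p q := by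
    intro q hq p hp
    have h1 : HasDerivAt (fun x => kerV x p.2 q) (F' p q (1, 0)) p.1 := by
      have h2 : HasDerivAt (fun x : ℝ => ((x, p.2) : ℝ × ℝ)) (1, 0) p.1 :=
        (hasDerivAt_id p.1).prodMk (hasDerivAt_const _ _)
      exact HasFDerivAt.comp_hasDerivAt (x := p.1) (f := fun x : ℝ => ((x, p.2) : ℝ × ℝ))
        (l := fun p => K p q) (hKd q hq p hp) h2
    have h3 := (hK1 p.1 p.2 q hp hq).1
    rwa [h1.deriv] at h3
  have hp2 : ∀ q : ℝ × ℝ, 0 < q.1 → ∀ p ∈ U, |p.1 * F' p q (0, 1)| ≤ 3 / 20 * K p q := by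
    intro q hq p hp
    have h1 : HasDerivAt (fun y => kerV p.1 y q) (F' p q (0, 1)) p.2 := by
      have h2 : HasDerivAt (fun y : ℝ => ((p.1, y) : ℝ × ℝ)) (0, 1) p.2 :=
        (hasDerivAt_const _ _).prodMk (hasDerivAt_id p.2)
      exact HasFDerivAt.comp_hasDerivAt (x := p.2) (f := fun y : ℝ => ((p.1, y) : ℝ × ℝ))
        (l := fun p => K p q) (hKd q hq p hp) h2
    have h3 := (hK1 p.1 p.2 q hp hq).2
    rwa [h1.deriv] at h3
  have hKle : ∀ q : ℝ × ℝ, 0 < q.1 → ∀ p ∈ U, 0 < K p q ∧ K p q ≤ p.1⁻¹ := fun q hq p hp =>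
    hK0 p.1 p.2 q hp hq
  have hKint : ∀ p ∈ U, Integrable (K p) ν := by
    intro p hp
    refine Integrable.of_bound (hKm p).aestronglyMeasurable p.1⁻¹ ?_
    filter_upwards [hae] with q hq
    rw [Real.norm_eq_abs, abs_of_pos (hKle q hq p hp).1]
    exact (hKle q hq p hp).2
  have hF'n : ∀ q : ℝ × ℝ, 0 < q.1 → ∀ p ∈ U, ‖F' p q‖ ≤ 2 * (p.1⁻¹ * p.1⁻¹) := by
    intro q hq p hp
    have hp0 : 0 < p.1 := hp
    have h1 := hp1 q hq p hp
    have h2 := hp2 q hq p hp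
    have h3 := (hKle q hq p hp).2
    rw [abs_mul, abs_of_pos hp0] at h1 h2
    have h4 : |F' p q (1, 0)| ≤ 3 / 2 * (p.1⁻¹ * p.1⁻¹) := by
      have h5 : |F' p q (1, 0)| = p.1⁻¹ * (p.1 * |F' p q (1, 0)|) := by
        rw [← mul_assoc, inv_mul_cancel₀ hp0.ne', one_mul]
      rw [h5]
      have h6 : p.1 * |F' p q (1, 0)| ≤ 3 / 2 * p.1⁻¹ := by linarith
      have h7 := mul_le_mul_of_nonneg_left h6 (inv_nonneg.2 hp0.le)
      linarith
    have h8 : |F' p q (0, 1)| ≤ 3 / 20 * (p.1⁻¹ * p.1⁻¹) := by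
      have h5 : |F' p q (0, 1)| = p.1⁻¹ * (p.1 * |F' p q (0, 1)|) := by
        rw [← mul_assoc, inv_mul_cancel₀ hp0.ne', one_mul]
      rw [h5]
      have h6 : p.1 * |F' p q (0, 1)| ≤ 3 / 20 * p.1⁻¹ := by linarith
      have h7 := mul_le_mul_of_nonneg_left h6 (inv_nonneg.2 hp0.le)
      linarith
    have h9 := clm_norm_le (F' p q)
    have h10 : 0 ≤ p.1⁻¹ * p.1⁻¹ := by positivity
    linarith
  -- measurability of the derivative
  have hF'v : ∀ p ∈ U, ∀ v : ℝ × ℝ, AEMeasurable (fun q => F' p q v) ν := by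
    intro p hp v
    refine aemeasurable_of_tendsto_metrizable_ae atTop (f := fun (n : ℕ) (q : ℝ × ℝ) =>
      (n : ℝ) • (K (p + (n : ℝ)⁻¹ • v) q - K p q)) (fun n => ?_) ?_
    · exact (((hKm _).sub (hKm _)).const_smul (n : ℝ)).aemeasurable
    · filter_upwards [hae] with q hq
      have h1 := (hKd q hq p hp).lim_real v
      exact h1.comp tendsto_natCast_atTop_atTop
  have hF'm : ∀ p ∈ U, AEStronglyMeasurable (F' p) ν := by
    intro p hp
    have h1 : F' p = fun q => F' p q (1, 0) • ContinuousLinearMap.fst ℝ ℝ ℝ +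
        F' p q (0, 1) • ContinuousLinearMap.snd ℝ ℝ ℝ := by
      funext q
      exact clm_eq (F' p q)
    rw [h1]
    exact ((hF'v p hp (1, 0)).aestronglyMeasurable.smul_const _).add
      ((hF'v p hp (0, 1)).aestronglyMeasurable.smul_const _)
  -- a neighbourhood
  have hnb : ∀ p ∈ U, {x : ℝ × ℝ | p.1 / 2 < x.1} ∈ 𝓝 p := by
    intro p hp
    have hp0 : 0 < p.1 := hp
    refine (isOpen_lt continuous_const continuous_fst).mem_nhds ?_
    change p.1 / 2 < p.1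
    linarith
  have hnU : ∀ p ∈ U, ∀ x : ℝ × ℝ, p.1 / 2 < x.1 → x ∈ U := by
    intro p hp x hx
    have hp0 : 0 < p.1 := hp
    change 0 < x.1
    linarith
  have hnn : ∀ p ∈ U, ∀ x : ℝ × ℝ, p.1 / 2 < x.1 → ∀ q : ℝ × ℝ, 0 < q.1 →
      ‖F' x q‖ ≤ 2 * ((p.1 / 2)⁻¹ * (p.1 / 2)⁻¹) := by
    intro p hp x hx q hq
    have hp0 : 0 < p.1 := hp
    refine (hF'n q hq x (hnU p hp x hx)).trans ?_
    have h1 : x.1⁻¹ ≤ (p.1 / 2)⁻¹ := inv_anti₀ (by positivity) hx.le
    have h2 : 0 ≤ x.1⁻¹ := inv_nonneg.2 (by linarith)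
    exact mul_le_mul_of_nonneg_left (mul_le_mul h1 h1 h2 (by positivity)) (by norm_num)
  set D : ℝ × ℝ → (ℝ × ℝ →L[ℝ] ℝ) := fun p => ∫ q, F' p q ∂ν with hD
  have hJd : ∀ p ∈ U, HasFDerivAt (fun p : ℝ × ℝ => Jn ν p.1 p.2) (D p) p := by
    intro p hp
    refine hasFDerivAt_integral_of_dominated_of_fderiv_le (F := K) (F' := F')
      (bound := fun _ => 2 * ((p.1 / 2)⁻¹ * (p.1 / 2)⁻¹)) (hnb p hp) ?_ (hKint p hp) (hF'm p hp)
      ?_ (integrable_const _) ?_
    · exact Eventually.of_forall fun x => (hKm x).aestronglyMeasurable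
    · filter_upwards [hae] with q hq x hx
      exact hnn p hp x hx q hq
    · filter_upwards [hae] with q hq x hx
      exact hKd q hq x (hnU p hp x hx)
  have hDc : ContinuousOn D U := by
    intro p hp
    refine ContinuousAt.continuousWithinAt ?_
    refine continuousAt_of_dominated (bound := fun _ => 2 * ((p.1 / 2)⁻¹ * (p.1 / 2)⁻¹)) ?_ ?_
      (integrable_const _) ?_
    · filter_upwards [hnb p hp] with x hx
      exact hF'm x (hnU p hp x hx)
    · filter_upwards [hnb p hp] with x hx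
      filter_upwards [hae] with q hq
      exact hnn p hp x hx q hq
    · filter_upwards [hae] with q hq
      exact (hF'c q hq).continuousAt (hU.mem_nhds hp)
  have hF'int : ∀ p ∈ U, Integrable (F' p) ν := by
    intro p hp
    refine Integrable.of_bound (hF'm p hp) (2 * (p.1⁻¹ * p.1⁻¹)) ?_
    filter_upwards [hae] with q hq
    exact hF'n q hq p hp
  have hbound : ∀ (c : ℝ) (v : ℝ × ℝ), (∀ q : ℝ × ℝ, 0 < q.1 → ∀ p ∈ U,
      |p.1 * F' p q v| ≤ c * K p q) → ∀ s τ : ℝ, 0 < s → |s * D (s, τ) v| ≤ c * Jn ν s τ := by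
    intro c v hv s τ hs
    have hp : ((s, τ) : ℝ × ℝ) ∈ U := hs
    have h1 : D (s, τ) v = ∫ q, F' (s, τ) q v ∂ν :=
      ContinuousLinearMap.integral_apply (hF'int _ hp) v
    have h2 : Jn ν s τ = ∫ q, K (s, τ) q ∂ν := rfl
    rw [h1, h2, ← integral_const_mul, ← integral_const_mul]
    refine (abs_integral_le_integral_abs).trans ?_
    have h3 : Integrable (fun q => F' (s, τ) q v) ν := (hF'int _ hp).apply_continuousLinearMap v
    refine integral_mono_ae (h3.const_mul s).abs ((hKint _ hp).const_mul c) ?_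
    filter_upwards [hae] with q hq
    exact hv q hq (s, τ) hp
  refine ⟨?_, ?_, ?_, ?_, ?_⟩
  · intro s τ hs
    refine integral_nonneg_of_ae ?_
    filter_upwards [hae] with q hq
    exact (hK0 s τ q hs hq).1.le
  · have h01 : (1 : WithTop ℕ∞) = 0 + 1 := by norm_num
    rw [h01, contDiffOn_succ_iff_fderiv_of_isOpen hU]
    refine ⟨fun p hp => (hJd p hp).differentiableAt.differentiableWithinAt, by simp, ?_⟩
    rw [contDiffOn_zero]
    exact hDc.congr fun p hp => (hJd p hp).fderiv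
  · intro s τ hs
    have hp : ((s, τ) : ℝ × ℝ) ∈ U := hs
    have h1 : HasDerivAt (fun x => Jn ν x τ) (D (s, τ) (1, 0)) s := by
      have h2 : HasDerivAt (fun x : ℝ => ((x, τ) : ℝ × ℝ)) (1, 0) s :=
        (hasDerivAt_id s).prodMk (hasDerivAt_const _ _)
      exact HasFDerivAt.comp_hasDerivAt (x := s) (f := fun x : ℝ => ((x, τ) : ℝ × ℝ))
        (l := fun p : ℝ × ℝ => Jn ν p.1 p.2) (hJd _ hp) h2
    rw [h1.deriv]
    exact hbound _ _ hp1 s τ hs
  · intro s τ hs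
    have hp : ((s, τ) : ℝ × ℝ) ∈ U := hs
    have h1 : HasDerivAt (fun y => Jn ν s y) (D (s, τ) (0, 1)) τ := by
      have h2 : HasDerivAt (fun y : ℝ => ((s, y) : ℝ × ℝ)) (0, 1) τ :=
        (hasDerivAt_const _ _).prodMk (hasDerivAt_id τ)
      exact HasFDerivAt.comp_hasDerivAt (x := τ) (f := fun y : ℝ => ((s, y) : ℝ × ℝ))
        (l := fun p : ℝ × ℝ => Jn ν p.1 p.2) (hJd _ hp) h2
    rw [h1.deriv]
    exact hbound _ _ hp2 s τ hs
  · intro s s' τ τ' hs hs' h1 h2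
    have h3 : Jn ν s τ = ∫ q, K (s, τ) q ∂ν := rfl
    have h4 : Jn ν s' τ' = ∫ q, K (s', τ') q ∂ν := rfl
    rw [h3, h4, ← integral_const_mul]
    refine integral_mono_ae (hKint _ hs) ((hKint _ hs').const_mul 2) ?_
    filter_upwards [hae] with q hq
    exact hKcmp s s' τ τ' q hs hs' hq h1 h2

end Pool.Agent.H5.AX
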