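import Pool.Agent.H87.AX.Targets4
import Pool.Agent.H74.SN.PR2

/-!
# Board axs, row PR3: the profile
-/

set_option autoImplicit false

namespace Pool.Agent.H5.AX

open Pool.Agent.H87.SN Pool.Agent.H87.SH Pool.Agent.H87.AX
open Pool.Agent.H74.SN (hasD1 hasD2 cd_comp fd_comp recip isOpen_half)
open MeasureTheory Metric Set Filter Topology
open scoped ContDiff RealInnerProductSpace ENNReal

theorem sqrt_hasDeriv {h s : ℝ} (hh : 0 < h) (hs : 0 < s) :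
    HasDerivAt (fun x : ℝ => Real.sqrt (h / x)) (-(Real.sqrt (h / s) / (2 * s))) s := by
  have h1 : HasDerivAt (fun x : ℝ => h / x) (-(h / s ^ 2)) s := by
    have h2 := (hasDerivAt_inv hs.ne').const_mul h
    refine (h2.congr_deriv ?_).congr_of_eventuallyEq ?_
    · field_simp
    · exact Eventually.of_forall fun x => div_eq_mul_inv _ _
  have hq : 0 < h / s := div_pos hh hs
  have h3 := h1.sqrt hq.ne'
  refine h3.congr_deriv ?_
  have h4 : Real.sqrt (h / s) ≠ 0 := (Real.sqrt_pos.2 hq).ne'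
  have h5 : Real.sqrt (h / s) * Real.sqrt (h / s) = h / s := Real.mul_self_sqrt hq.le
  have h6 : h / s ^ 2 = Real.sqrt (h / s) * Real.sqrt (h / s) / s := by
    rw [h5]
    field_simp
  rw [h6]
  have h7 := hs.ne'
  field_simp

theorem pf_PR3 (hHC1 : T_HC1) (hJGN : T_JGN) : T_PR3 := by
  intro h ν hh hh1 hν
  obtain ⟨hJ0, hJcd, hJ1, hJ2, -⟩ := hJGN ν hν
  have hsq : ∀ s : ℝ, 0 < s → 0 < Real.sqrt (h / s) := fun s hs =>
    Real.sqrt_pos.2 (div_pos hh hs)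
  set J' : ℝ → ℝ → ℝ := fun s τ => Jn ν s τ + Real.sqrt (h / s) with hJ'
  have hJ'pos : ∀ s τ : ℝ, 0 < s → 0 < J' s τ := fun s τ hs =>
    add_pos_of_nonneg_of_pos (hJ0 s τ hs) (hsq s hs)
  have hsqcd : ContDiffOn ℝ 1 (fun p : ℝ × ℝ => Real.sqrt (h / p.1)) {p | 0 < p.1} := by
    have h1 : ContDiffOn ℝ 1 (fun p : ℝ × ℝ => h / p.1) {p | 0 < p.1} :=
      contDiff_const.contDiffOn.div contDiff_fst.contDiffOn fun p hp => (ne_of_gt hp)
    exact h1.sqrt fun p hp => (div_pos hh hp).ne'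
  have hJ'cd : ContDiffOn ℝ 1 (fun p : ℝ × ℝ => J' p.1 p.2) {p | 0 < p.1} := hJcd.add hsqcd
  have hJ'1 : ∀ s τ : ℝ, 0 < s → |s * deriv (fun x => J' x τ) s| ≤ 3 / 2 * J' s τ := by
    intro s τ hs
    have hd : HasDerivAt (fun x => Jn ν x τ) (deriv (fun x => Jn ν x τ) s) s :=
      (hasD1 (F := fun p : ℝ × ℝ => Jn ν p.1 p.2) hJcd hs).differentiableAt.hasDerivAt
    have h1 := hd.add (sqrt_hasDeriv hh hs)
    have h2 : deriv (fun x => J' x τ) s =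
        deriv (fun x => Jn ν x τ) s + -(Real.sqrt (h / s) / (2 * s)) := h1.deriv
    rw [h2]
    have h3 := abs_le.1 (hJ1 s τ hs)
    have h4 := hsq s hs
    have h5 := hJ0 s τ hs
    have h6 : s * (deriv (fun x => Jn ν x τ) s + -(Real.sqrt (h / s) / (2 * s))) =
        s * deriv (fun x => Jn ν x τ) s - Real.sqrt (h / s) / 2 := by
      field_simp
      ring
    rw [h6, abs_le]
    simp only [hJ']
    constructor <;> linarith [h3.1, h3.2]
  have hJ'2 : ∀ s τ : ℝ, 0 < s → |s * deriv (fun y => J' s y) τ| ≤ 3 / 20 * J' s τ := by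
    intro s τ hs
    have hd : HasDerivAt (fun y => Jn ν s y) (deriv (fun y => Jn ν s y) τ) τ :=
      (hasD2 (F := fun p : ℝ × ℝ => Jn ν p.1 p.2) hJcd hs).differentiableAt.hasDerivAt
    have h1 := hd.add_const (Real.sqrt (h / s))
    have h2 : deriv (fun y => J' s y) τ = deriv (fun y => Jn ν s y) τ := h1.deriv
    rw [h2]
    refine (hJ2 s τ hs).trans ?_
    have h4 := hsq s hs
    simp only [hJ']
    linarith
  obtain ⟨hWcd, hWpos, hWle, hW1, hW2⟩ := recip J' hJ'pos hJ'cd hJ'1 hJ'2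
  obtain ⟨H, hHcd, hHpos, hHeq, hH3, hH4, hH5⟩ := hHC1
    (fun p : ℝ × ℝ => (p.1 + J' p.1 p.2)⁻¹) hWcd hWpos hWle hW1 hW2
  refine ⟨fun p => H (p.1, p.2 0), ?_⟩
  have hWn : (fun p : ℝ × E 1 => Wn h ν (p.1, p.2 0)) =
      fun p : ℝ × E 1 => (p.1 + J' p.1 (p.2 0))⁻¹ := by
    funext p
    unfold Wn
    simp only [hJ']
    rw [add_assoc]
  rw [hWn]
  have hWF : ∀ p : ℝ × E 1, 0 < p.1 → _ := fun p hp =>
    fd_comp (F := fun p : ℝ × ℝ => (p.1 + J' p.1 p.2)⁻¹) hWcd p hp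
  have hHF : ∀ p : ℝ × E 1, 0 < p.1 → _ := fun p hp => fd_comp hHcd p hp
  refine ⟨cd_comp hHcd, cd_comp (F := fun p : ℝ × ℝ => (p.1 + J' p.1 p.2)⁻¹) hWcd,
    fun p hp => hHpos _ _ hp, fun p hp => hWpos _ _ hp, fun p hp => ?_, fun p hp => ?_,
    fun p hp => ?_, fun p hp => hH3 _ _ hp, fun p hp => ?_, fun p hp _ => ?_,
    fun p hp hp2 => ?_, fun p hp _ hn hpr => ?_⟩
  · rw [(hHF p hp).1]
    exact hHeq p.1 (p.2 0) hp
  · rw [(hWF p hp).1]
    exact hW1 p.1 (p.2 0) hp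
  · rw [Fin.sum_univ_one, (hWF p hp).2 0, ← mul_pow]
    have h1 := hW2 p.1 (p.2 0) hp
    have h2 := hWpos p.1 (p.2 0) hp
    have h3 := sq_le_sq' (abs_le.1 h1).1 (abs_le.1 h1).2
    refine h3.trans ?_
    show (3 / 20 * (p.1 + J' p.1 (p.2 0))⁻¹) ^ 2 ≤ 1 / 4 * (p.1 + J' p.1 (p.2 0))⁻¹ ^ 2
    nlinarith [sq_nonneg (p.1 + J' p.1 (p.2 0))⁻¹]
  · rw [Fin.sum_univ_one, (hHF p hp).2 0, ← mul_pow]
    exact hH4 p.1 (p.2 0) hp
  · exact (hH5 p.1 (p.2 0) hp).trans (by norm_num)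
  · have h1 := hWle p.1 (p.2 0) hp
    have h2 : p.1 ^ 2 * (p.1 + J' p.1 (p.2 0))⁻¹ ≤ p.1 ^ 2 * p.1⁻¹ :=
      mul_le_mul_of_nonneg_left h1 (sq_nonneg _)
    have h3 : p.1 ^ 2 * p.1⁻¹ = p.1 := by
      have := hp.ne'
      field_simp
    rw [h3] at h2
    exact h2.trans (hp2.trans (by norm_num))
  · have h1 : 1 / 2 ≤ Real.sqrt (h / p.1) := by
      refine Real.le_sqrt_of_sq_le ?_
      rw [le_div_iff₀ hp]
      linarith
    have h2 := hJ0 p.1 (p.2 0) hp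
    have h3 : (1 / 2 : ℝ) ≤ p.1 + J' p.1 (p.2 0) := by
      simp only [hJ']
      linarith
    have h4 : (p.1 + J' p.1 (p.2 0))⁻¹ ≤ (1 / 2 : ℝ)⁻¹ := inv_anti₀ (by norm_num) h3
    refine h4.trans ?_
    norm_num

end Pool.Agent.H5.AX
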