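import Pool.Agent.H5.AX.IN3

/-!
# Board axs, row RGI: integrals of rotation invariant functions over rings and slices
-/

set_option autoImplicit false

namespace Pool.Agent.H5.AX

open Pool.Agent.H87.SN Pool.Agent.H87.SH Pool.Agent.H87.AX
open MeasureTheory Metric Set Filter Topology
open scoped ContDiff RealInnerProductSpace ENNReal

/-- the coordinates of the Euclidean plane -/
noncomputable def eq2 : E 2 ≃ᵐ ℝ × ℝ :=
  (MeasurableEquiv.toLp 2 (Fin 2 → ℝ)).symm.trans MeasurableEquiv.finTwoArrow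

theorem eq2_apply (z : E 2) : eq2 z = (z 0, z 1) := rfl

theorem eq2_mp : MeasurePreserving eq2 volume volume := by
  have h1 := (EuclideanSpace.volume_preserving_symm_measurableEquiv_toLp (Fin 2))
  have h2 := volume_preserving_finTwoArrow ℝ
  exact h2.comp h1

theorem pt_cont : Continuous (fun q : ℝ × ℝ => pt q.1 q.2) := by
  unfold pt
  fun_prop

/-- every point is the rotation of a point of the half plane -/
theorem rot_pt (x : E (1 + 2)) : ∃ θ : ℝ, rot θ (pt (rho x) (zp x 0)) = x := by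
  have h1 := Complex.norm_mul_cos_arg (⟨x 0, x 1⟩ : ℂ)
  have h2 := Complex.norm_mul_sin_arg (⟨x 0, x 1⟩ : ℂ)
  have h3 : ‖(⟨x 0, x 1⟩ : ℂ)‖ = rho x := by
    rw [Complex.norm_eq_sqrt_sq_add_sq]
    rfl
  rw [h3] at h1 h2
  refine ⟨Complex.arg ⟨x 0, x 1⟩, ?_⟩
  have hz : zp x 0 = x 2 := rfl
  ext i
  fin_cases i
  · simp only [rot, pt, Pm, Jm, bv, LinearMap.coe_toContinuousLinearMap', LinearMap.coe_mk,
      AddHom.coe_mk, PiLp.add_apply, PiLp.smul_apply, PiLp.single_apply, smul_eq_mul]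
    simp
    linarith
  · simp only [rot, pt, Pm, Jm, bv, LinearMap.coe_toContinuousLinearMap', LinearMap.coe_mk,
      AddHom.coe_mk, PiLp.add_apply, PiLp.smul_apply, PiLp.single_apply, smul_eq_mul]
    simp
    linarith
  · simp only [rot, pt, Pm, Jm, bv, LinearMap.coe_toContinuousLinearMap', LinearMap.coe_mk,
      AddHom.coe_mk, PiLp.add_apply, PiLp.smul_apply, PiLp.single_apply, smul_eq_mul]
    simp [hz]

/-- the square in the half plane -/
def Sqr (p : ℝ × ℝ) (l : ℝ) : Set (ℝ × ℝ) :=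
  {q | |q.1 - p.1| < l * p.1 ∧ |q.2 - p.2| < l * p.1}

/-- the disc in the half plane -/
def Dsc (p : ℝ × ℝ) (R : ℝ) : Set (ℝ × ℝ) := {q | (q.1 - p.1) ^ 2 + (q.2 - p.2) ^ 2 < R ^ 2}

theorem Sqr_meas (p : ℝ × ℝ) (l : ℝ) : MeasurableSet (Sqr p l) := by
  have c1 : Continuous fun q : ℝ × ℝ => |q.1 - p.1| := by fun_prop
  have c2 : Continuous fun q : ℝ × ℝ => |q.2 - p.2| := by fun_prop
  exact ((isOpen_lt c1 continuous_const).inter (isOpen_lt c2 continuous_const)).measurableSet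

theorem Dsc_meas (p : ℝ × ℝ) (R : ℝ) : MeasurableSet (Dsc p R) := by
  have c1 : Continuous fun q : ℝ × ℝ => (q.1 - p.1) ^ 2 + (q.2 - p.2) ^ 2 := by fun_prop
  exact (isOpen_lt c1 continuous_const).measurableSet

/-- the integral over a ring -/
theorem ring_int (hPOL : T_POL) (f : E (1 + 2) → ℝ≥0∞) (hf : Measurable f) (p : ℝ × ℝ)
    (hp : 0 < p.1) (l : ℝ) (hl : l ≤ 1) (hrot : ∀ (θ : ℝ) (x : E (1 + 2)), f (rot θ x) = f x) :
    ∫⁻ x in rg p l, f x = ∫⁻ q : ℝ × ℝ, (Sqr p l).indicator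
      (fun q => ENNReal.ofReal (2 * Real.pi * q.1) * f (pt q.1 q.2)) q := by
  have hG : Measurable fun q : ℝ × ℝ => f (pt q.1 q.2) := hf.comp pt_cont.measurable
  have hfx : ∀ x, f x = f (pt (rho x) (zp x 0)) := fun x => by
    obtain ⟨θ, hθ⟩ := rot_pt x
    rw [← hrot θ (pt (rho x) (zp x 0)), hθ]
  have h1 : ∫⁻ x in rg p l, f x = ∫⁻ x : E (1 + 2), (fun q : ℝ × E 1 =>
      (Sqr p l).indicator (fun q => f (pt q.1 q.2)) (q.1, q.2 0)) (rho x, zp x) := by
    rw [← lintegral_indicator (rg_slice l p)]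
    refine lintegral_congr fun x => ?_
    simp only
    by_cases hx : x ∈ rg p l
    · rw [indicator_of_mem hx, indicator_of_mem (show (rho x, zp x 0) ∈ Sqr p l from hx)]
      exact hfx x
    · rw [indicator_of_notMem hx,
        indicator_of_notMem (show (rho x, zp x 0) ∉ Sqr p l from hx)]
  have hc : Measurable fun q : ℝ × E 1 => (q.1, q.2 0) := by
    have : Continuous fun q : ℝ × E 1 => (q.1, q.2 0) := by fun_prop
    exact this.measurable
  have hm0 : Measurable fun q : ℝ × E 1 =>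
      (Sqr p l).indicator (fun q => f (pt q.1 q.2)) (q.1, q.2 0) :=
    (hG.indicator (Sqr_meas p l)).comp hc
  rw [h1, hPOL 1 _ hm0]
  have h2 : ∫⁻ z : E 1, ∫⁻ s in Ioi (0 : ℝ), ENNReal.ofReal (2 * Real.pi * s) *
      (Sqr p l).indicator (fun q => f (pt q.1 q.2)) (s, z 0) =
      ∫⁻ τ : ℝ, ∫⁻ s in Ioi (0 : ℝ), ENNReal.ofReal (2 * Real.pi * s) *
        (Sqr p l).indicator (fun q => f (pt q.1 q.2)) (s, τ) :=
    eq1_mp.lintegral_comp_emb eq1.measurableEmbedding (fun τ : ℝ =>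
      ∫⁻ s in Ioi (0 : ℝ), ENNReal.ofReal (2 * Real.pi * s) *
        (Sqr p l).indicator (fun q => f (pt q.1 q.2)) (s, τ))
  refine h2.trans ?_
  have hm : Measurable fun q : ℝ × ℝ => (Sqr p l).indicator
      (fun q => ENNReal.ofReal (2 * Real.pi * q.1) * f (pt q.1 q.2)) q := by
    refine Measurable.indicator ?_ (Sqr_meas p l)
    have m1 : Measurable fun q : ℝ × ℝ => ENNReal.ofReal (2 * Real.pi * q.1) := by fun_prop
    exact m1.mul hG
  rw [Measure.volume_eq_prod, lintegral_prod_symm _ hm.aemeasurable]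
  refine lintegral_congr fun τ => ?_
  rw [← lintegral_indicator measurableSet_Ioi]
  refine lintegral_congr fun s => ?_
  by_cases hs : (s, τ) ∈ Sqr p l
  · have hs0 : s ∈ Ioi (0 : ℝ) := by
      have h3 := (abs_lt.1 hs.1).1
      have h4 : l * p.1 ≤ p.1 := mul_le_of_le_one_left hp.le hl
      change 0 < s
      simp only at h3
      linarith
    rw [indicator_of_mem hs0, indicator_of_mem hs, indicator_of_mem hs]
  · rw [indicator_of_notMem hs]
    by_cases hs0 : s ∈ Ioi (0 : ℝ)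
    · rw [indicator_of_mem hs0, indicator_of_notMem hs, mul_zero]
    · rw [indicator_of_notMem hs0]

/-- affine change of variables in the plane -/
theorem affine (Φ : ℝ × ℝ → ℝ≥0∞) (hΦ : Measurable Φ) (p : ℝ × ℝ) (r : ℝ) (hr : 0 < r) :
    ∫⁻ a : ℝ × ℝ, Φ (p + r • a) = ENNReal.ofReal ((r ^ 2)⁻¹) * ∫⁻ q : ℝ × ℝ, Φ q := by
  have h1 : ∫⁻ a : ℝ × ℝ, Φ (p + r • a) =
      ∫⁻ b : ℝ × ℝ, Φ (p + b) ∂(Measure.map (r • ·) (volume : Measure (ℝ × ℝ))) := by
    have hm0 : Measurable fun b : ℝ × ℝ => Φ (p + b) := hΦ.comp (measurable_const_add p)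
    rw [lintegral_map hm0 (measurable_const_smul r)]
  rw [h1, Measure.map_addHaar_smul _ hr.ne', lintegral_smul_measure,
    lintegral_add_left_eq_self Φ p]
  have h2 : Module.finrank ℝ (ℝ × ℝ) = 2 := by simp
  rw [h2, abs_of_pos (by positivity), smul_eq_mul]

/-- the integral over a slice -/
theorem slice_int (G : ℝ × ℝ → ℝ≥0∞) (hG : Measurable G) (p : ℝ × ℝ)
    (hp : 0 < p.1) (R : ℝ) (hR : 0 < R) :
    ∫⁻ y in ball (0 : E 2) R, G (p.1 * (1 + y 0 / 4), p.2 + p.1 * y 1 / 4) =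
      ENNReal.ofReal (16 / p.1 ^ 2) * ∫⁻ q : ℝ × ℝ, (Dsc p (p.1 / 4 * R)).indicator G q := by
  set Φ : ℝ × ℝ → ℝ≥0∞ := (Dsc p (p.1 / 4 * R)).indicator G with hΦd
  have hΦ : Measurable Φ := hG.indicator (Dsc_meas _ _)
  have h1 : ∫⁻ y in ball (0 : E 2) R, G (p.1 * (1 + y 0 / 4), p.2 + p.1 * y 1 / 4) =
      ∫⁻ y : E 2, (fun a : ℝ × ℝ => Φ (p + (p.1 / 4) • a)) (eq2 y) := by
    rw [← lintegral_indicator isOpen_ball.measurableSet]
    refine lintegral_congr fun y => ?_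
    have e1 : p + (p.1 / 4) • eq2 y = (p.1 * (1 + y 0 / 4), p.2 + p.1 * y 1 / 4) := by
      rw [eq2_apply]
      ext
      · simp only [Prod.fst_add, Prod.smul_fst, smul_eq_mul]
        ring
      · simp only [Prod.snd_add, Prod.smul_snd, smul_eq_mul]
        ring
    have e2 : y ∈ ball (0 : E 2) R ↔ p + (p.1 / 4) • eq2 y ∈ Dsc p (p.1 / 4 * R) := by
      rw [e1, mem_ball, dist_zero_right, ← abs_of_pos hR, ← abs_norm, ← sq_lt_sq,
        EuclideanSpace.norm_sq_eq, Fin.sum_univ_two, abs_of_pos hR]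
      simp only [Dsc, mem_ofPred_eq, Real.norm_eq_abs, sq_abs]
      have e3 : (p.1 * (1 + y 0 / 4) - p.1) ^ 2 + (p.2 + p.1 * y 1 / 4 - p.2) ^ 2 =
          (p.1 / 4) ^ 2 * (y 0 ^ 2 + y 1 ^ 2) := by ring
      have e4 : (p.1 / 4 * R) ^ 2 = (p.1 / 4) ^ 2 * R ^ 2 := by ring
      rw [e3, e4]
      exact (mul_lt_mul_iff_right₀ (by positivity)).symm
    simp only
    by_cases hy : y ∈ ball (0 : E 2) R
    · rw [indicator_of_mem hy, hΦd, indicator_of_mem (e2.1 hy), e1]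
    · rw [indicator_of_notMem hy, hΦd, indicator_of_notMem fun h => hy (e2.2 h)]
  rw [h1, eq2_mp.lintegral_comp_emb eq2.measurableEmbedding
    (fun a : ℝ × ℝ => Φ (p + (p.1 / 4) • a)), affine Φ hΦ p (p.1 / 4) (by positivity)]
  congr 2
  field_simp
  norm_num

theorem pf_RGI (hROT : T_ROT) (hPOL : T_POL) : T_RGI := by
  have _h := hROT
  intro f p hf hp hrot
  have hG : Measurable fun q : ℝ × ℝ => f (pt q.1 q.2) := hf.comp pt_cont.measurable
  have hpi := Real.pi_gt_three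
  have hpi4 := Real.pi_le_four
  have hsl : ∀ R : ℝ, 0 < R → ENNReal.ofReal p.1 ^ 3 * (∫⁻ y in ball (0 : E 2) R, f (posn p y)) =
      16 * ∫⁻ q : ℝ × ℝ, ENNReal.ofReal p.1 *
        (Dsc p (p.1 / 4 * R)).indicator (fun q => f (pt q.1 q.2)) q := by
    intro R hR
    have h1 : ∫⁻ y in ball (0 : E 2) R, f (posn p y) =
        ENNReal.ofReal (16 / p.1 ^ 2) * ∫⁻ q : ℝ × ℝ,
          (Dsc p (p.1 / 4 * R)).indicator (fun q => f (pt q.1 q.2)) q :=
      slice_int (fun q => f (pt q.1 q.2)) hG p hp R hR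
    rw [h1, lintegral_const_mul' _ _ ENNReal.ofReal_ne_top, ← mul_assoc, ← mul_assoc]
    congr 1
    rw [← ENNReal.ofReal_pow hp.le, ← ENNReal.ofReal_mul (by positivity)]
    have h2 : (16 : ℝ≥0∞) = ENNReal.ofReal 16 := by rw [ENNReal.ofReal_ofNat]
    rw [h2, ← ENNReal.ofReal_mul (by positivity)]
    congr 1
    field_simp
  refine ⟨?_, ?_⟩
  · rw [hsl 1 one_pos, ring_int hPOL f hf p hp (1 / 4) (by norm_num) hrot]
    refine mul_le_mul_right (lintegral_mono fun q => ?_) _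
    by_cases hq : q ∈ Dsc p (p.1 / 4 * 1)
    · have h1 : (q.1 - p.1) ^ 2 + (q.2 - p.2) ^ 2 < (p.1 / 4 * 1) ^ 2 := hq
      have hp4 : 0 < 1 / 4 * p.1 := by positivity
      have h2 : |q.1 - p.1| < 1 / 4 * p.1 := by
        rw [← abs_of_pos hp4, ← sq_lt_sq]
        nlinarith [sq_nonneg (q.2 - p.2)]
      have h3 : |q.2 - p.2| < 1 / 4 * p.1 := by
        rw [← abs_of_pos hp4, ← sq_lt_sq]
        nlinarith [sq_nonneg (q.1 - p.1)]
      have hq2 : q ∈ Sqr p (1 / 4) := ⟨h2, h3⟩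
      simp only
      rw [indicator_of_mem hq, indicator_of_mem hq2]
      refine mul_le_mul_left (ENNReal.ofReal_le_ofReal ?_) _
      have h4 := (abs_lt.1 h2).1
      nlinarith
    · simp only
      rw [indicator_of_notMem hq, mul_zero]
      exact zero_le
  · rw [hsl (1 / 2) (by norm_num), ring_int hPOL f hf p hp (1 / 16) (by norm_num) hrot,
      ← lintegral_const_mul' _ _ (by norm_num), ← lintegral_const_mul' _ _ (by norm_num)]
    refine lintegral_mono fun q => ?_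
    by_cases hq : q ∈ Sqr p (1 / 16)
    · have h2 := abs_lt.1 hq.1
      have h3 := abs_lt.1 hq.2
      have hq2 : q ∈ Dsc p (p.1 / 4 * (1 / 2)) := by
        have h4 : (q.1 - p.1) ^ 2 ≤ (1 / 16 * p.1) ^ 2 := sq_le_sq' h2.1.le h2.2.le
        have h5 : (q.2 - p.2) ^ 2 ≤ (1 / 16 * p.1) ^ 2 := sq_le_sq' h3.1.le h3.2.le
        change (q.1 - p.1) ^ 2 + (q.2 - p.2) ^ 2 < (p.1 / 4 * (1 / 2)) ^ 2
        have h6 : 0 < p.1 ^ 2 := by positivity
        nlinarith
      simp only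
      rw [indicator_of_mem hq, indicator_of_mem hq2, ← mul_assoc, ← mul_assoc]
      refine mul_le_mul_left ?_ _
      have h7 : (16 : ℝ≥0∞) = ENNReal.ofReal 16 := by rw [ENNReal.ofReal_ofNat]
      rw [h7, ← ENNReal.ofReal_mul (by positivity), ← ENNReal.ofReal_mul (by positivity)]
      refine ENNReal.ofReal_le_ofReal ?_
      have h8 : q.1 ≤ 17 / 16 * p.1 := by linarith [h2.2]
      nlinarith
    · simp only
      rw [indicator_of_notMem hq]
      exact zero_le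

end Pool.Agent.H5.AX
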